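import Mathlib

/-!
# A left N-essential ring which is not right N-essential

For every field `K` we construct a four-dimensional unital nonassociative `K`-algebra `A` with
basis `1, t, u, r` and the only nonzero products of the basis elements `t, u, r` being
`t * r = u` and `r * r = t`.  Its nucleus is the span of `1, t, u`; it is left `N`-essential, but
`r * N = K r` meets the nucleus trivially, so it is not right `N`-essential.
-/

namespace Pool.Agent.Results.MP_0af3ab_al.LeftNotRight

universe v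

/-- The associative center (nucleus) `N(R)` of a unital, not necessarily associative ring `R`:
all `x` with `(x,a,b) = (a,x,b) = (a,b,x) = 0` for all `a, b`, where
`(a,b,c) = (a * b) * c - a * (b * c)`. -/
def nucleus (R : Type v) [NonAssocRing R] : Set R :=
  {x | ∀ a b : R, associator x a b = 0 ∧ associator a x b = 0 ∧ associator a b x = 0}

/-- `R` is left `N`-essential: `N(R) r ∩ N(R) ≠ 0` for every nonzero `r`. -/
def LeftNEssential (R : Type v) [NonAssocRing R] : Prop :=
  ∀ r : R, r ≠ 0 → ∃ x ∈ nucleus R, x * r ∈ nucleus R ∧ x * r ≠ 0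

/-- `R` is right `N`-essential: `r N(R) ∩ N(R) ≠ 0` for every nonzero `r`. -/
def RightNEssential (R : Type v) [NonAssocRing R] : Prop :=
  ∀ r : R, r ≠ 0 → ∃ x ∈ nucleus R, r * x ∈ nucleus R ∧ r * x ≠ 0

/-- The underlying space of the algebra: coordinates with respect to the basis `1, t, u, r`. -/
@[ext]
structure Alg (K : Type v) where
  /-- coefficient of `1` -/
  c1 : K
  /-- coefficient of `t` -/
  ct : K
  /-- coefficient of `u` -/
  cu : K
  /-- coefficient of `r` -/
  cr : K

namespace Alg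

variable {K : Type v} [Field K]

instance : Zero (Alg K) := ⟨⟨0, 0, 0, 0⟩⟩
instance : One (Alg K) := ⟨⟨1, 0, 0, 0⟩⟩
instance : Add (Alg K) := ⟨fun a b => ⟨a.c1 + b.c1, a.ct + b.ct, a.cu + b.cu, a.cr + b.cr⟩⟩
instance : Neg (Alg K) := ⟨fun a => ⟨-a.c1, -a.ct, -a.cu, -a.cr⟩⟩
instance : SMul K (Alg K) := ⟨fun k a => ⟨k * a.c1, k * a.ct, k * a.cu, k * a.cr⟩⟩
/-- The product with `t * r = u`, `r * r = t` and all other products of `t, u, r` zero. -/
instance : Mul (Alg K) := ⟨fun a b =>
  ⟨a.c1 * b.c1,
   a.c1 * b.ct + a.ct * b.c1 + a.cr * b.cr,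
   a.c1 * b.cu + a.cu * b.c1 + a.ct * b.cr,
   a.c1 * b.cr + a.cr * b.c1⟩⟩

@[simp] lemma zero_c1 : (0 : Alg K).c1 = 0 := rfl
@[simp] lemma zero_ct : (0 : Alg K).ct = 0 := rfl
@[simp] lemma zero_cu : (0 : Alg K).cu = 0 := rfl
@[simp] lemma zero_cr : (0 : Alg K).cr = 0 := rfl
@[simp] lemma one_c1 : (1 : Alg K).c1 = 1 := rfl
@[simp] lemma one_ct : (1 : Alg K).ct = 0 := rfl
@[simp] lemma one_cu : (1 : Alg K).cu = 0 := rfl
@[simp] lemma one_cr : (1 : Alg K).cr = 0 := rfl
@[simp] lemma add_c1 (a b : Alg K) : (a + b).c1 = a.c1 + b.c1 := rfl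
@[simp] lemma add_ct (a b : Alg K) : (a + b).ct = a.ct + b.ct := rfl
@[simp] lemma add_cu (a b : Alg K) : (a + b).cu = a.cu + b.cu := rfl
@[simp] lemma add_cr (a b : Alg K) : (a + b).cr = a.cr + b.cr := rfl
@[simp] lemma neg_c1 (a : Alg K) : (-a).c1 = -a.c1 := rfl
@[simp] lemma neg_ct (a : Alg K) : (-a).ct = -a.ct := rfl
@[simp] lemma neg_cu (a : Alg K) : (-a).cu = -a.cu := rfl
@[simp] lemma neg_cr (a : Alg K) : (-a).cr = -a.cr := rfl
@[simp] lemma smul_c1 (k : K) (a : Alg K) : (k • a).c1 = k * a.c1 := rfl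
@[simp] lemma smul_ct (k : K) (a : Alg K) : (k • a).ct = k * a.ct := rfl
@[simp] lemma smul_cu (k : K) (a : Alg K) : (k • a).cu = k * a.cu := rfl
@[simp] lemma smul_cr (k : K) (a : Alg K) : (k • a).cr = k * a.cr := rfl
@[simp] lemma mul_c1 (a b : Alg K) : (a * b).c1 = a.c1 * b.c1 := rfl
@[simp] lemma mul_ct (a b : Alg K) :
    (a * b).ct = a.c1 * b.ct + a.ct * b.c1 + a.cr * b.cr := rfl
@[simp] lemma mul_cu (a b : Alg K) :
    (a * b).cu = a.c1 * b.cu + a.cu * b.c1 + a.ct * b.cr := rfl
@[simp] lemma mul_cr (a b : Alg K) : (a * b).cr = a.c1 * b.cr + a.cr * b.c1 := rfl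

instance : AddCommGroup (Alg K) where
  add_assoc a b c := by ext <;> simp [add_assoc]
  zero_add a := by ext <;> simp
  add_zero a := by ext <;> simp
  add_comm a b := by ext <;> simp [add_comm]
  neg_add_cancel a := by ext <;> simp
  nsmul := nsmulRec
  zsmul := zsmulRec

instance : NonAssocRing (Alg K) where
  left_distrib a b c := by ext <;> simp <;> ring
  right_distrib a b c := by ext <;> simp <;> ring
  zero_mul a := by ext <;> simp
  mul_zero a := by ext <;> simp
  one_mul a := by ext <;> simp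
  mul_one a := by ext <;> simp

instance : Module K (Alg K) where
  one_smul a := by ext <;> simp
  mul_smul k l a := by ext <;> simp [mul_assoc]
  smul_zero k := by ext <;> simp
  smul_add k a b := by ext <;> simp [mul_add]
  add_smul k l a := by ext <;> simp [add_mul]
  zero_smul a := by ext <;> simp

@[simp] lemma sub_c1 (a b : Alg K) : (a - b).c1 = a.c1 - b.c1 := by
  rw [sub_eq_add_neg, add_c1, neg_c1, sub_eq_add_neg]
@[simp] lemma sub_ct (a b : Alg K) : (a - b).ct = a.ct - b.ct := by
  rw [sub_eq_add_neg, add_ct, neg_ct, sub_eq_add_neg]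
@[simp] lemma sub_cu (a b : Alg K) : (a - b).cu = a.cu - b.cu := by
  rw [sub_eq_add_neg, add_cu, neg_cu, sub_eq_add_neg]
@[simp] lemma sub_cr (a b : Alg K) : (a - b).cr = a.cr - b.cr := by
  rw [sub_eq_add_neg, add_cr, neg_cr, sub_eq_add_neg]

instance : IsScalarTower K (Alg K) (Alg K) where
  smul_assoc k a b := by
    simp only [smul_eq_mul]
    ext <;> simp <;> ring

instance : SMulCommClass K (Alg K) (Alg K) where
  smul_comm k a b := by
    simp only [smul_eq_mul]
    ext <;> simp <;> ring

/-- Coordinates identify `Alg K` with `Fin 4 → K`. -/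
def coords : Alg K ≃ₗ[K] (Fin 4 → K) where
  toFun a := ![a.c1, a.ct, a.cu, a.cr]
  invFun f := ⟨f 0, f 1, f 2, f 3⟩
  map_add' a b := by ext i; fin_cases i <;> simp
  map_smul' k a := by ext i; fin_cases i <;> simp
  left_inv a := by ext <;> simp
  right_inv f := by ext i; fin_cases i <;> simp

lemma finrank_eq : Module.finrank K (Alg K) = 4 := by
  rw [LinearEquiv.finrank_eq (coords (K := K)), Module.finrank_fin_fun]

/-- The nucleus of `Alg K` consists of the elements with zero `r`-coefficient. -/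
lemma mem_nucleus_iff (x : Alg K) : x ∈ nucleus (Alg K) ↔ x.cr = 0 := by
  constructor
  · intro hx
    have h := (hx ⟨0, 0, 0, 1⟩ ⟨0, 0, 0, 1⟩).1
    have h' := congrArg Alg.cu h
    simpa [associator] using h'
  · intro hx a b
    refine ⟨?_, ?_, ?_⟩
    · ext <;> simp [associator, hx] <;> ring
    · ext <;> simp [associator, hx] <;> ring
    · ext <;> simp [associator, hx] <;> ring

lemma left : LeftNEssential (Alg K) := by
  intro a ha
  by_cases hr : a.cr = 0
  · refine ⟨1, ?_, ?_, ?_⟩
    · rw [mem_nucleus_iff]; rfl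
    · rw [mem_nucleus_iff]; simpa using hr
    · simpa using ha
  · refine ⟨⟨0, 1, 0, 0⟩, ?_, ?_, ?_⟩
    · rw [mem_nucleus_iff]
    · rw [mem_nucleus_iff]; simp
    · intro h
      apply hr
      have h' := congrArg Alg.cu h
      simpa using h'

lemma not_right : ¬ RightNEssential (Alg K) := by
  intro h
  obtain ⟨x, hx, h1, h2⟩ := h ⟨0, 0, 0, 1⟩ (by
    intro h0
    have := congrArg Alg.cr h0
    simp at this)
  rw [mem_nucleus_iff] at hx h1
  have hx1 : x.c1 = 0 := by simpa using h1
  apply h2
  ext <;> simp [hx, hx1]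

end Alg

/-- For every field `K` there is a unital nonassociative ring, indeed a four-dimensional
`K`-algebra, which is left `N`-essential but not right `N`-essential. (For `K = ZMod 2` it has
16 elements.) -/
theorem result (K : Type v) [Field K] :
    ∃ (R : Type v) (_ : NonAssocRing R) (_ : Module K R),
      IsScalarTower K R R ∧ SMulCommClass K R R ∧ Module.finrank K R = 4 ∧
      LeftNEssential R ∧ ¬ RightNEssential R :=
  ⟨Alg K, inferInstance, inferInstance, inferInstance, inferInstance, Alg.finrank_eq,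
    Alg.left, Alg.not_right⟩

end Pool.Agent.Results.MP_0af3ab_al.LeftNotRight
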